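import Mathlib

set_option autoImplicit false

/-! # The rising sun lemma for blocks -/

namespace Pool.Agent.K4H50.GR

open Finset

/-- all block averages to the right of `i`, up to `K` blocks, are at least `β` -/
def RG (a : ℕ → ℝ) (β : ℝ) (K i : ℕ) : Prop :=
  ∀ k : ℕ, 1 ≤ k → k ≤ K → β * k ≤ ∑ j ∈ Ico i (i + k), a j

/-- all block averages to the left of `i` (including `i`), up to `K` blocks, are at least `β` -/
def LG (a : ℕ → ℝ) (β : ℝ) (K i : ℕ) : Prop :=
  ∀ k : ℕ, 1 ≤ k → k ≤ K → β * k ≤ ∑ j ∈ Ico (i + 1 - k) (i + 1), a j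

open scoped Classical

theorem sum_filter_Ico_le {a : ℕ → ℝ} (ha : ∀ i, 0 ≤ a i) (P : ℕ → Prop) {s s' t t' : ℕ}
    (h1 : s' ≤ s) (h2 : t ≤ t') :
    ∑ i ∈ (Ico s t).filter P, a i ≤ ∑ i ∈ (Ico s' t').filter P, a i := by
  apply Finset.sum_le_sum_of_subset_of_nonneg
  · intro i hi
    rw [mem_filter, mem_Ico] at hi ⊢
    exact ⟨⟨by omega, by omega⟩, hi.2⟩
  · intro i _ _
    exact ha i

theorem greedy_right {a : ℕ → ℝ} (ha : ∀ i, 0 ≤ a i) {β : ℝ} (hβ : 0 ≤ β) (K : ℕ) :
    ∀ n s t : ℕ, s ≤ t → t - s = n → ∃ e : ℕ, t ≤ e ∧ e ≤ t + K ∧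
      ∑ i ∈ Ico s e, a i ≤ β * ((e : ℝ) - s) + ∑ i ∈ (Ico s t).filter (RG a β K), a i := by
  intro n
  induction n using Nat.strong_induction_on with
  | _ n ih =>
    intro s t hst hn
    rcases Nat.eq_zero_or_pos n with h0 | h0
    · have : s = t := by omega
      subst this
      exact ⟨s, le_rfl, by omega, by simp⟩
    have hlt : s < t := by omega
    by_cases hg : RG a β K s
    · obtain ⟨e, he1, he2, he3⟩ := ih (n - 1) (by omega) (s + 1) t (by omega) (by omega)
      refine ⟨e, he1, he2, ?_⟩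
      have e1 : ∑ i ∈ Ico s e, a i = a s + ∑ i ∈ Ico (s + 1) e, a i :=
        Finset.sum_eq_sum_Ico_succ_bot (by omega) a
      have e2 : (Ico s t).filter (RG a β K) = insert s ((Ico (s + 1) t).filter (RG a β K)) := by
        ext i
        simp only [mem_filter, mem_insert, mem_Ico]
        constructor
        · rintro ⟨⟨h1, h2⟩, h3⟩
          by_cases h : i = s
          · exact Or.inl h
          · exact Or.inr ⟨⟨by omega, h2⟩, h3⟩
        · rintro (h | ⟨⟨h1, h2⟩, h3⟩)
          · subst h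
            exact ⟨⟨le_rfl, hlt⟩, hg⟩
          · exact ⟨⟨by omega, h2⟩, h3⟩
      have e3 : s ∉ (Ico (s + 1) t).filter (RG a β K) := by
        simp
      rw [e1, e2, Finset.sum_insert e3]
      have e4 : β * ((e : ℝ) - ((s + 1 : ℕ) : ℝ)) ≤ β * ((e : ℝ) - s) := by
        apply mul_le_mul_of_nonneg_left _ hβ
        push_cast
        linarith
      linarith
    · unfold RG at hg
      push Not at hg
      obtain ⟨k, hk1, hk2, hk3⟩ := hg
      rcases le_or_gt t (s + k) with h | h
      · refine ⟨s + k, h, by omega, ?_⟩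
        have e1 : 0 ≤ ∑ i ∈ (Ico s t).filter (RG a β K), a i := Finset.sum_nonneg fun i _ => ha i
        push_cast
        have e2 : β * ((s : ℝ) + k - s) = β * k := by ring
        rw [e2]
        linarith
      · obtain ⟨e, he1, he2, he3⟩ := ih (t - (s + k)) (by omega) (s + k) t (by omega) rfl
        refine ⟨e, he1, he2, ?_⟩
        have e1 : ∑ i ∈ Ico s e, a i = ∑ i ∈ Ico s (s + k), a i + ∑ i ∈ Ico (s + k) e, a i :=
          (Finset.sum_Ico_consecutive a (by omega) (by omega)).symm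
        have e2 : ∑ i ∈ (Ico (s + k) t).filter (RG a β K), a i ≤
            ∑ i ∈ (Ico s t).filter (RG a β K), a i := sum_filter_Ico_le ha _ (by omega) le_rfl
        rw [e1]
        push_cast at he3
        have e3 : β * ((e : ℝ) - s) = β * k + β * ((e : ℝ) - (s + k)) := by ring
        linarith

theorem greedy_left {a : ℕ → ℝ} (ha : ∀ i, 0 ≤ a i) {β : ℝ} (hβ : 0 ≤ β) (K : ℕ) :
    ∀ n s t : ℕ, K ≤ s → s ≤ t → t - s = n → ∃ e : ℕ, e ≤ s ∧ s ≤ e + K ∧
      ∑ i ∈ Ico e t, a i ≤ β * ((t : ℝ) - e) + ∑ i ∈ (Ico s t).filter (LG a β K), a i := by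
  intro n
  induction n using Nat.strong_induction_on with
  | _ n ih =>
    intro s t hKs hst hn
    rcases Nat.eq_zero_or_pos n with h0 | h0
    · have : s = t := by omega
      subst this
      exact ⟨s, le_rfl, by omega, by simp⟩
    have hlt : s < t := by omega
    by_cases hg : LG a β K (t - 1)
    · obtain ⟨e, he1, he2, he3⟩ := ih (n - 1) (by omega) s (t - 1) hKs (by omega) (by omega)
      refine ⟨e, he1, he2, ?_⟩
      have e1 : ∑ i ∈ Ico e t, a i = ∑ i ∈ Ico e (t - 1), a i + a (t - 1) := by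
        have := Finset.sum_Ico_succ_top (show e ≤ t - 1 by omega) a
        rwa [show t - 1 + 1 = t by omega] at this
      have e2 : (Ico s t).filter (LG a β K) = insert (t - 1) ((Ico s (t - 1)).filter (LG a β K)) := by
        ext i
        simp only [mem_filter, mem_insert, mem_Ico]
        constructor
        · rintro ⟨⟨h1, h2⟩, h3⟩
          by_cases h : i = t - 1
          · exact Or.inl h
          · exact Or.inr ⟨⟨h1, by omega⟩, h3⟩
        · rintro (h | ⟨⟨h1, h2⟩, h3⟩)
          · subst h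
            exact ⟨⟨by omega, by omega⟩, hg⟩
          · exact ⟨⟨h1, by omega⟩, h3⟩
      have e3 : t - 1 ∉ (Ico s (t - 1)).filter (LG a β K) := by
        simp
      rw [e1, e2, Finset.sum_insert e3]
      have e4 : β * (((t - 1 : ℕ) : ℝ) - e) ≤ β * ((t : ℝ) - e) := by
        apply mul_le_mul_of_nonneg_left _ hβ
        have : ((t - 1 : ℕ) : ℝ) ≤ t := by exact_mod_cast Nat.sub_le t 1
        linarith
      linarith
    · unfold LG at hg
      push Not at hg
      obtain ⟨k, hk1, hk2, hk3⟩ := hg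
      rw [show t - 1 + 1 = t by omega] at hk3
      rcases le_or_gt (t - k) s with h | h
      · refine ⟨t - k, h, by omega, ?_⟩
        have e1 : 0 ≤ ∑ i ∈ (Ico s t).filter (LG a β K), a i := Finset.sum_nonneg fun i _ => ha i
        have e2 : β * ((t : ℝ) - ((t - k : ℕ) : ℝ)) = β * k := by
          rw [Nat.cast_sub (by omega)]
          ring
        rw [e2]
        linarith
      · obtain ⟨e, he1, he2, he3⟩ := ih (t - k - s) (by omega) s (t - k) hKs (by omega) rfl
        refine ⟨e, he1, he2, ?_⟩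
        have e1 : ∑ i ∈ Ico e t, a i = ∑ i ∈ Ico e (t - k), a i + ∑ i ∈ Ico (t - k) t, a i :=
          (Finset.sum_Ico_consecutive a (by omega) (by omega)).symm
        have e2 : ∑ i ∈ (Ico s (t - k)).filter (LG a β K), a i ≤
            ∑ i ∈ (Ico s t).filter (LG a β K), a i := sum_filter_Ico_le ha _ le_rfl (by omega)
        rw [e1]
        rw [Nat.cast_sub (by omega : k ≤ t)] at he3
        have e3 : β * ((t : ℝ) - e) = β * k + β * ((t : ℝ) - k - e) := by ring
        linarith

/-- both sides at once: the blocks which are good on both sides carry the proportion `1 - α - β` -/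
theorem both {a : ℕ → ℝ} (ha : ∀ i, 0 ≤ a i) {α β μ η : ℝ} (hα : 0 ≤ α) (hβ : 0 ≤ β) (hαμ : α ≤ μ)
    (hβμ : β ≤ μ) (K s t : ℕ)
    (hKs : K ≤ s) (hst : s ≤ t)
    (hlow : ∀ u v : ℕ, s - K ≤ u → u ≤ v → v ≤ t + K → μ * ((v : ℝ) - u) - η ≤ ∑ i ∈ Ico u v, a i)
    (hup : ∑ i ∈ Ico s t, a i ≤ μ * ((t : ℝ) - s) + η) :
    (μ - α - β) * ((t : ℝ) - s) - 3 * η ≤
      ∑ i ∈ (Ico s t).filter (fun i => LG a α K i ∧ RG a β K i), a i := by
  obtain ⟨e, he1, he2, he3⟩ := greedy_right ha hβ K _ s t hst rfl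
  obtain ⟨f, hf1, hf2, hf3⟩ := greedy_left ha hα K _ s t hKs hst rfl
  have h1 := hlow s e (by omega) (by omega) he2
  have h2 := hlow f t (by omega) (by omega) (by omega)
  have hst' : (s : ℝ) ≤ t := by exact_mod_cast hst
  have h3 : (μ - β) * ((t : ℝ) - s) - η ≤ ∑ i ∈ (Ico s t).filter (RG a β K), a i := by
    have e1 : (μ - β) * ((t : ℝ) - s) ≤ (μ - β) * ((e : ℝ) - s) := by
      apply mul_le_mul_of_nonneg_left _ (by linarith)
      have : (t : ℝ) ≤ e := by exact_mod_cast he1
      linarith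
    linarith
  have h4 : (μ - α) * ((t : ℝ) - s) - η ≤ ∑ i ∈ (Ico s t).filter (LG a α K), a i := by
    have e1 : (μ - α) * ((t : ℝ) - s) ≤ (μ - α) * ((t : ℝ) - f) := by
      apply mul_le_mul_of_nonneg_left _ (by linarith)
      have : (f : ℝ) ≤ s := by exact_mod_cast hf1
      linarith
    linarith
  have h5 : ∑ i ∈ (Ico s t).filter (RG a β K), a i + ∑ i ∈ (Ico s t).filter (LG a α K), a i ≤
      ∑ i ∈ Ico s t, a i + ∑ i ∈ (Ico s t).filter (fun i => LG a α K i ∧ RG a β K i), a i := by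
    rw [Finset.sum_filter, Finset.sum_filter, Finset.sum_filter, ← Finset.sum_add_distrib,
      ← Finset.sum_add_distrib]
    apply Finset.sum_le_sum
    intro i _
    have := ha i
    by_cases hr : RG a β K i <;> by_cases hl : LG a α K i <;> simp [hr, hl] <;> linarith
  have e5 : (μ - α - β) * ((t : ℝ) - s) =
      (μ - α) * ((t : ℝ) - s) + (μ - β) * ((t : ℝ) - s) - μ * ((t : ℝ) - s) := by ring
  linarith

end Pool.Agent.K4H50.GR
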