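import Mathlib
import Pool.Agent.Cov.PNT
import Pool.Agent.K4H50.GR.A1

set_option autoImplicit false

/-! # The prime number theorem for unions of blocks -/

namespace Pool.Agent.K4H50.GR

open Finset Filter Topology

/-- the number of primes in the block `(i W, (i + 1) W]` -/
noncomputable def blk (W i : ℕ) : ℝ :=
  (Nat.primeCounting ((i + 1) * W) : ℝ) - Nat.primeCounting (i * W)

theorem pc_mono {a b : ℕ} (h : a ≤ b) : (Nat.primeCounting a : ℝ) ≤ Nat.primeCounting b := by
  exact_mod_cast Nat.monotone_primeCounting h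

theorem blk_nonneg (W i : ℕ) : 0 ≤ blk W i := by
  unfold blk
  have : (Nat.primeCounting (i * W) : ℝ) ≤ Nat.primeCounting ((i + 1) * W) :=
    pc_mono (Nat.mul_le_mul_right _ (by omega))
  linarith

theorem sum_blk (W : ℕ) {u v : ℕ} (h : u ≤ v) :
    ∑ i ∈ Ico u v, blk W i = (Nat.primeCounting (v * W) : ℝ) - Nat.primeCounting (u * W) := by
  induction v, h using Nat.le_induction with
  | base => simp
  | succ v hv ih =>
    rw [Finset.sum_Ico_succ_top hv, ih]
    unfold blk
    ring

/-- the number of primes in `(a, b]` -/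
theorem card_Ioc_prime {a b : ℕ} (h : a ≤ b) :
    (((Ioc a b).filter Nat.Prime).card : ℝ) =
      (Nat.primeCounting b : ℝ) - Nat.primeCounting a := by
  have h1 : ((Ioc a b).filter Nat.Prime).card + Nat.primeCounting a = Nat.primeCounting b := by
    have e1 : ∀ n : ℕ, Nat.primeCounting n = ((Finset.range (n + 1)).filter Nat.Prime).card := by
      intro n
      rw [Nat.primeCounting, Nat.primeCounting', Nat.count_eq_card_filter_range]
    rw [e1, e1, ← Finset.card_union_of_disjoint]
    · congr 1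
      ext p
      simp only [mem_union, mem_filter, mem_Ioc, mem_range]
      constructor
      · rintro (⟨⟨h1, h2⟩, h3⟩ | ⟨h1, h3⟩)
        · exact ⟨by omega, h3⟩
        · exact ⟨by omega, h3⟩
      · rintro ⟨h1, h3⟩
        by_cases h4 : a < p
        · exact Or.inl ⟨⟨h4, by omega⟩, h3⟩
        · exact Or.inr ⟨by omega, h3⟩
    · rw [Finset.disjoint_left]
      intro p hp hp2
      rw [mem_filter, mem_Ioc] at hp
      rw [mem_filter, mem_range] at hp2
      omega
  rw [← h1]
  push_cast
  ring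

theorem card_Ioc_le {a b : ℕ} (h : a ≤ b) :
    (Nat.primeCounting b : ℝ) - Nat.primeCounting a ≤ (b : ℝ) - a := by
  rw [← card_Ioc_prime h]
  have h1 : ((Ioc a b).filter Nat.Prime).card ≤ b - a := by
    refine (Finset.card_filter_le _ _).trans ?_
    rw [Nat.card_Ioc]
  have h2 : (((Ioc a b).filter Nat.Prime).card : ℝ) ≤ ((b - a : ℕ) : ℝ) := by exact_mod_cast h1
  rwa [Nat.cast_sub h] at h2

theorem blk_le (W i : ℕ) : blk W i ≤ W := by
  unfold blk
  have := card_Ioc_le (show i * W ≤ (i + 1) * W from Nat.mul_le_mul_right _ (by omega))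
  push_cast at this ⊢
  linarith

theorem pnt_unif {η : ℝ} (hη : 0 < η) (hη1 : η ≤ 1) : ∃ x₀ : ℝ, ∀ x : ℝ, x₀ ≤ x →
    ∀ T : ℕ, x / 4 ≤ T → (T : ℝ) ≤ 4 * x →
    (T : ℝ) / Real.log x - η * (x / Real.log x) ≤ Nat.primeCounting T ∧
    (Nat.primeCounting T : ℝ) ≤ (T : ℝ) / Real.log x + η * (x / Real.log x) := by
  have h0 := Pool.Agent.Cov.PNT.pi_tendsto
  have hη' : 0 < η / 16 := by positivity
  have h1 : ∀ᶠ y : ℝ in atTop, |(Nat.primeCounting ⌊y⌋₊ : ℝ) * Real.log y / y - 1| < η / 16 := by
    have := h0.eventually (Metric.ball_mem_nhds (1 : ℝ) hη')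
    filter_upwards [this] with y hy
    rwa [Real.dist_eq] at hy
  obtain ⟨y₀, hy₀⟩ := eventually_atTop.1 h1
  have h2 : ∀ᶠ x : ℝ in atTop, y₀ ≤ x / 4 ∧ 16 ≤ x ∧ 128 / η + 8 ≤ Real.log x := by
    refine ((tendsto_id.atTop_div_const (by norm_num : (0:ℝ) < 4)).eventually_ge_atTop y₀).and
      ((eventually_ge_atTop 16).and (Real.tendsto_log_atTop.eventually_ge_atTop _))
  obtain ⟨x₀, hx₀⟩ := eventually_atTop.1 h2
  refine ⟨x₀, fun x hx T hT1 hT2 => ?_⟩
  obtain ⟨g1, g2, g3⟩ := hx₀ x hx
  have hTpos : (0:ℝ) < T := by linarith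
  have hx0 : 0 < x := by linarith
  have hl4 : Real.log 4 ≤ 2 := by
    have h6 : Real.log 4 = 2 * Real.log 2 := by
      rw [show (4:ℝ) = 2 ^ 2 by norm_num, Real.log_pow]; norm_num
    have := Real.log_two_lt_d9
    rw [h6]; linarith
  have h128 : 0 < 128 / η := by positivity
  have hLx : 0 < Real.log x := by linarith
  have hy := hy₀ T (g1.trans hT1)
  rw [Nat.floor_natCast] at hy
  have hlT1 : Real.log x - 2 ≤ Real.log T := by
    have h := Real.log_le_log (by positivity) hT1
    rw [Real.log_div hx0.ne' (by norm_num)] at h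
    linarith
  have hlT2 : Real.log T ≤ Real.log x + 2 := by
    have h := Real.log_le_log hTpos hT2
    rw [Real.log_mul (by norm_num) hx0.ne'] at h
    linarith
  have h2x : (2:ℝ) ≤ η / 64 * Real.log x := by
    calc (2:ℝ) = η / 64 * (128 / η) := by field_simp; norm_num
      _ ≤ η / 64 * Real.log x := by
        apply mul_le_mul_of_nonneg_left _ (by positivity)
        linarith
  have hlT : Real.log x ≤ 2 * Real.log T := by linarith
  have hlT0 : 0 < Real.log T := by linarith
  obtain ⟨P, hP⟩ : ∃ P : ℝ, P = Nat.primeCounting T := ⟨_, rfl⟩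
  rw [← hP] at hy ⊢
  have hP0 : 0 ≤ P := by rw [hP]; exact Nat.cast_nonneg _
  rw [abs_lt] at hy
  have hy1 : T - η / 16 * T ≤ P * Real.log T := by
    have : 1 - η / 16 ≤ P * Real.log T / T := by linarith [hy.1]
    rw [le_div_iff₀ hTpos] at this
    linarith
  have hy2 : P * Real.log T ≤ T + η / 16 * T := by
    have : P * Real.log T / T ≤ 1 + η / 16 := by linarith [hy.2]
    rw [div_le_iff₀ hTpos] at this
    linarith
  have hP4 : P * 2 ≤ η / 32 * (P * Real.log T) := by
    calc P * 2 ≤ P * (η / 64 * Real.log x) := mul_le_mul_of_nonneg_left h2x hP0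
      _ ≤ P * (η / 64 * (2 * Real.log T)) := by
          apply mul_le_mul_of_nonneg_left _ hP0
          apply mul_le_mul_of_nonneg_left _ (by positivity)
          linarith
      _ = η / 32 * (P * Real.log T) := by ring
  have hPx : P * Real.log x ≤ P * Real.log T + P * 2 := by
    rw [← mul_add]
    apply mul_le_mul_of_nonneg_left _ hP0
    linarith
  have hPx2 : P * Real.log T - P * 2 ≤ P * Real.log x := by
    rw [← mul_sub]
    apply mul_le_mul_of_nonneg_left _ hP0
    linarith
  have hηT : η * T ≤ η * (4 * x) := mul_le_mul_of_nonneg_left hT2 hη.le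
  have hηη : η * (η * T) ≤ 1 * (η * T) := mul_le_mul_of_nonneg_right hη1 (by positivity)
  have hηP : η / 32 * (P * Real.log T) ≤ η / 32 * (T + η / 16 * T) :=
    mul_le_mul_of_nonneg_left hy2 (by positivity)
  have e1 : η / 32 * (T + η / 16 * T) = 1 / 32 * (η * T) + 1 / 512 * (η * (η * T)) := by ring
  have e2 : η / 16 * (T : ℝ) = 1 / 16 * (η * T) := by ring
  constructor
  · rw [← mul_div_assoc, ← sub_div, div_le_iff₀ hLx]
    linarith
  · rw [← mul_div_assoc, ← add_div, le_div_iff₀ hLx]
    linarith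

end Pool.Agent.K4H50.GR
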