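import Mathlib
import Pool.Agent.K4H50.GR.A2

set_option autoImplicit false

/-! # Many blocks which are regular on both sides and contain a prime -/

namespace Pool.Agent.K4H50.GR

open Finset Filter Topology

open scoped Classical

/-- the good blocks -/
noncomputable def GB (x : ℝ) (W K s t : ℕ) (α β : ℝ) : Finset ℕ :=
  (Ico s t).filter (fun i => 0 < blk W i ∧ LG (blk W) (α * (W / Real.log x)) K i ∧
    RG (blk W) (β * (W / Real.log x)) K i)

theorem many_good {α β : ℝ} (hα : 0 ≤ α) (hβ : 0 ≤ β) (hαβ : α + β < 1) :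
    ∃ x₀ : ℝ, ∀ x : ℝ, x₀ ≤ x → ∀ W : ℕ, 1 ≤ W → 100 * (W : ℝ) ≤ x → ∃ K s t : ℕ,
      x / 2 ≤ K * W ∧ (K : ℝ) * W ≤ x / 2 + W ∧ 5 / 4 * x ≤ s * W ∧ (t : ℝ) * W ≤ 7 / 4 * x ∧
      (1 - α - β) / 8 * (x / (W * Real.log x)) ≤ ((GB x W K s t α β).card : ℝ) := by
  obtain ⟨κ, hκ⟩ : ∃ κ : ℝ, κ = 1 - α - β := ⟨_, rfl⟩
  have hκ0 : 0 < κ := by rw [hκ]; linarith
  have hκ1 : κ ≤ 1 := by rw [hκ]; linarith
  obtain ⟨x₀, hx₀⟩ := pnt_unif (η := κ / 60) (by positivity) (by linarith)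
  refine ⟨max x₀ 100, fun x hx W hW1 hWx => ?_⟩
  have hxx₀ : x₀ ≤ x := (le_max_left _ _).trans hx
  have hx100 : 100 ≤ x := (le_max_right _ _).trans hx
  have hx0 : 0 < x := by linarith
  have hW0 : (0:ℝ) < W := by exact_mod_cast hW1
  have hL : 0 < Real.log x := Real.log_pos (by linarith)
  obtain ⟨K, hK⟩ : ∃ K : ℕ, K = ⌈x / (2 * W)⌉₊ := ⟨_, rfl⟩
  obtain ⟨s, hs⟩ : ∃ s : ℕ, s = ⌈5 * x / (4 * W)⌉₊ := ⟨_, rfl⟩
  obtain ⟨t, ht⟩ : ∃ t : ℕ, t = ⌊7 * x / (4 * W)⌋₊ := ⟨_, rfl⟩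
  have hK1 : x / 2 ≤ K * W := by
    have h := Nat.le_ceil (x / (2 * W))
    rw [← hK, div_le_iff₀ (by positivity)] at h
    linarith
  have hK2 : (K : ℝ) * W ≤ x / 2 + W := by
    have h := (Nat.ceil_lt_add_one (show 0 ≤ x / (2 * W) by positivity)).le
    rw [← hK] at h
    calc (K : ℝ) * W ≤ (x / (2 * W) + 1) * W := mul_le_mul_of_nonneg_right h hW0.le
      _ = x / 2 + W := by field_simp
  have hs1 : 5 / 4 * x ≤ s * W := by
    have h := Nat.le_ceil (5 * x / (4 * W))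
    rw [← hs, div_le_iff₀ (by positivity)] at h
    linarith
  have hs2 : (s : ℝ) * W ≤ 5 / 4 * x + W := by
    have h := (Nat.ceil_lt_add_one (show 0 ≤ 5 * x / (4 * W) by positivity)).le
    rw [← hs] at h
    calc (s : ℝ) * W ≤ (5 * x / (4 * W) + 1) * W := mul_le_mul_of_nonneg_right h hW0.le
      _ = 5 / 4 * x + W := by field_simp
  have ht1 : (t : ℝ) * W ≤ 7 / 4 * x := by
    have h := Nat.floor_le (show 0 ≤ 7 * x / (4 * W) by positivity)
    rw [← ht, le_div_iff₀ (by positivity)] at h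
    linarith
  have ht2 : 7 / 4 * x ≤ t * W + W := by
    have h := (Nat.lt_floor_add_one (7 * x / (4 * W))).le
    rw [← ht, div_le_iff₀ (by positivity)] at h
    linarith
  have hst : s ≤ t := by
    have h : (s : ℝ) * W ≤ t * W := by linarith
    exact_mod_cast le_of_mul_le_mul_right h hW0
  have hKs : K ≤ s := by
    have h : (K : ℝ) * W ≤ s * W := by linarith
    exact_mod_cast le_of_mul_le_mul_right h hW0
  refine ⟨K, s, t, hK1, hK2, hs1, ht1, ?_⟩
  obtain ⟨μ, hμ⟩ : ∃ μ : ℝ, μ = (W : ℝ) / Real.log x := ⟨_, rfl⟩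
  have hμ0 : 0 < μ := by rw [hμ]; positivity
  obtain ⟨η, hη⟩ : ∃ η : ℝ, η = κ / 60 * (x / Real.log x) := ⟨_, rfl⟩
  have hpt : ∀ v : ℕ, s - K ≤ v → v ≤ t + K →
      μ * v - η ≤ Nat.primeCounting (v * W) ∧ (Nat.primeCounting (v * W) : ℝ) ≤ μ * v + η := by
    intro v h1 h2
    have e1 : (s : ℝ) - K ≤ v := by
      rw [← Nat.cast_sub hKs]
      exact_mod_cast h1
    have e2 : (v : ℝ) ≤ t + K := by exact_mod_cast h2
    have e3 : ((s : ℝ) - K) * W ≤ v * W := mul_le_mul_of_nonneg_right e1 hW0.le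
    have e4 : (v : ℝ) * W ≤ (t + K) * W := mul_le_mul_of_nonneg_right e2 hW0.le
    have h := hx₀ x hxx₀ (v * W) (by push_cast; linarith) (by push_cast; linarith)
    have e5 : (((v * W : ℕ) : ℝ)) / Real.log x = μ * v := by
      rw [hμ]
      push_cast
      ring
    rw [e5, ← hη] at h
    exact h
  have hlow : ∀ u v : ℕ, s - K ≤ u → u ≤ v → v ≤ t + K →
      μ * ((v : ℝ) - u) - 2 * η ≤ ∑ i ∈ Ico u v, blk W i := by
    intro u v h1 h2 h3
    rw [sum_blk W h2]
    have a1 := (hpt v (h1.trans h2) h3).1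
    have a2 := (hpt u h1 (h2.trans h3)).2
    linarith
  have hup : ∑ i ∈ Ico s t, blk W i ≤ μ * ((t : ℝ) - s) + 2 * η := by
    rw [sum_blk W hst]
    have a1 := (hpt t (by omega) (by omega)).2
    have a2 := (hpt s (by omega) (by omega)).1
    linarith
  have hmain := both (blk_nonneg W) (α := α * μ) (β := β * μ) (μ := μ) (η := 2 * η)
    (by positivity) (by positivity)
    (by nlinarith) (by nlinarith) K s t hKs hst hlow hup
  have e1 : (μ - α * μ - β * μ) * ((t : ℝ) - s) = κ * (((t : ℝ) * W - s * W) / Real.log x) := by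
    rw [hμ, hκ]
    field_simp
  have e2 : x / 4 ≤ (t : ℝ) * W - s * W := by linarith
  have e3 : κ * (x / 4 / Real.log x) ≤ κ * (((t : ℝ) * W - s * W) / Real.log x) := by
    apply mul_le_mul_of_nonneg_left _ hκ0.le
    exact div_le_div_of_nonneg_right e2 hL.le
  have e4 : κ * (x / 4 / Real.log x) - 3 * (2 * η) = κ * (3 / 20) * (x / Real.log x) := by
    rw [hη]
    ring
  have e5 : κ / 8 * (x / Real.log x) ≤ κ * (3 / 20) * (x / Real.log x) := by
    apply mul_le_mul_of_nonneg_right _ (by positivity)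
    linarith
  have e6 : ∑ i ∈ (Ico s t).filter (fun i => LG (blk W) (α * μ) K i ∧ RG (blk W) (β * μ) K i),
      blk W i ≤ W * ((GB x W K s t α β).card : ℝ) := by
    have f1 : ∑ i ∈ (Ico s t).filter (fun i => LG (blk W) (α * μ) K i ∧ RG (blk W) (β * μ) K i),
        blk W i = ∑ i ∈ GB x W K s t α β, blk W i := by
      unfold GB
      rw [Finset.sum_filter, Finset.sum_filter]
      apply Finset.sum_congr rfl
      intro i _
      rw [← hμ]
      by_cases h : 0 < blk W i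
      · simp [h]
      · have h0 : blk W i = 0 := le_antisymm (not_lt.1 h) (blk_nonneg W i)
        simp [h0]
    rw [f1]
    calc ∑ i ∈ GB x W K s t α β, blk W i ≤ ∑ _i ∈ GB x W K s t α β, (W : ℝ) :=
          Finset.sum_le_sum fun i _ => blk_le W i
      _ = W * ((GB x W K s t α β).card : ℝ) := by
          rw [Finset.sum_const, nsmul_eq_mul, mul_comm]
  have e7 : κ / 8 * (x / Real.log x) ≤ W * ((GB x W K s t α β).card : ℝ) := by
    rw [e1] at hmain
    linarith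
  rw [← hκ]
  have e8 : κ / 8 * (x / (W * Real.log x)) = κ / 8 * (x / Real.log x) / W := by
    field_simp
  rw [e8, div_le_iff₀ hW0]
  linarith

end Pool.Agent.K4H50.GR
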