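import Mathlib
import Pool.Agent.K4H50.GR.A3

set_option autoImplicit false

/-! # The prime gap around a run of composite numbers in a good block -/

namespace Pool.Agent.K4H50.GR

open Finset Filter Topology

open scoped Classical

/-- `π(y)` -/
noncomputable def pi (y : ℝ) : ℝ := (Nat.primeCounting ⌊y⌋₊ : ℝ)

theorem pi_nat (n : ℕ) : pi (n : ℝ) = Nat.primeCounting n := by
  unfold pi
  rw [Nat.floor_natCast]

theorem pi_mono {y z : ℝ} (h : y ≤ z) : pi y ≤ pi z := pc_mono (Nat.floor_le_floor h)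

/-- the gap with index `m` is regular on both sides -/
def Reg (x X' α β : ℝ) (m : ℕ) : Prop :=
  ∀ H : ℝ, X' ≤ H → H ≤ x / 2 →
    α * (H / Real.log x) ≤ pi (Nat.nth Nat.Prime m) - pi (Nat.nth Nat.Prime m - H) ∧
    β * (H / Real.log x) ≤ pi (Nat.nth Nat.Prime (m + 1) + H) - pi (Nat.nth Nat.Prime (m + 1))

/-- the primes around `n` -/
theorem around {n : ℕ} (hn : 2 ≤ n) : ∃ m : ℕ, Nat.nth Nat.Prime m ≤ n ∧
    n < Nat.nth Nat.Prime (m + 1) ∧ Nat.primeCounting n = m + 1 ∧
    Nat.primeCounting (Nat.nth Nat.Prime m) = m + 1 ∧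
    Nat.primeCounting (Nat.nth Nat.Prime (m + 1)) = m + 2 := by
  have hinf := Nat.infinite_setOfPred_prime
  have hc : 1 ≤ Nat.primeCounting n := by
    have h := Nat.monotone_primeCounting hn
    have h2 : Nat.primeCounting 2 = 1 := by decide
    omega
  have hpc : ∀ m : ℕ, Nat.primeCounting (Nat.nth Nat.Prime m) = m + 1 := by
    intro m
    rw [Nat.primeCounting, Nat.primeCounting', Nat.count_succ, Nat.count_nth_of_infinite hinf]
    rw [if_pos (Nat.nth_mem_of_infinite hinf m)]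
  refine ⟨Nat.primeCounting n - 1, ?_, ?_, by omega, hpc _, ?_⟩
  · have h : Nat.primeCounting n - 1 < Nat.count Nat.Prime (n + 1) := by
      have : Nat.count Nat.Prime (n + 1) = Nat.primeCounting n := rfl
      omega
    have := Nat.nth_lt_of_lt_count h
    omega
  · rw [Nat.sub_add_cancel hc]
    have h := Nat.le_nth_count hinf (n + 1)
    exact h
  · rw [hpc]

theorem block_gap {x X F G X' α β α' β' : ℝ} {W K s t i : ℕ}
    (hx : 100 ≤ x) (hW : 1 ≤ W) (hα' : 0 < α') (hβ' : 0 < β') (hα'1 : α' ≤ 1) (hβ'1 : β' ≤ 1)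
    (hWa : 20 * ((W : ℝ) * Real.log x) ≤ α' * x) (hWb : 20 * ((W : ℝ) * Real.log x) ≤ β' * x)
    (hL1 : 1 ≤ Real.log x)
    (hX'a : 4 * ((W : ℝ) * Real.log x) ≤ (α' - α) * X')
    (hX'b : 4 * ((W : ℝ) * Real.log x) ≤ (β' - β) * X') (hαα : α ≤ α') (hββ : β ≤ β')
    (hX'W : (W : ℝ) ≤ X')
    (hXW : X ≤ W) (hGF : G ≤ F) (hF : 0 ≤ F)
    (hK1 : x / 2 ≤ K * W) (hK2 : (K : ℝ) * W ≤ x / 2 + W) (hs : 5 / 4 * x ≤ s * W)
    (ht : (t : ℝ) * W ≤ 7 / 4 * x)
    (hi : i ∈ GB x W K s t α' β')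
    (hX2 : X ^ (1 / 2 : ℝ) ≤ x)
    (hrun : ∃ n : ℤ, ((i * W : ℕ) : ℤ) ≤ n ∧ (n : ℝ) + F ≤ ((i * W : ℕ) : ℤ) + X ∧
      ∀ k : ℕ, 1 ≤ k → (k : ℝ) ≤ F → ∃ p : ℕ, p.Prime ∧ (p : ℝ) ≤ X ^ (1 / 2 : ℝ) ∧
        (p : ℤ) ∣ n + k) :
    ∃ m : ℕ, x < Nat.nth Nat.Prime m ∧ (Nat.nth Nat.Prime (m + 1) : ℝ) ≤ 2 * x ∧
      G ≤ (Nat.nth Nat.Prime (m + 1) : ℝ) - Nat.nth Nat.Prime m ∧ Reg x X' α β m ∧
      (i = (Nat.nth Nat.Prime m - 1) / W ∨ i = (Nat.nth Nat.Prime (m + 1) - 1) / W) := by
  obtain ⟨n, hn1, hn2, hn3⟩ := hrun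
  have hn0 : 0 ≤ n := le_trans (by positivity) hn1
  lift n to ℕ using hn0
  have hn1' : i * W ≤ n := by exact_mod_cast hn1
  push_cast at hn2
  unfold GB at hi
  rw [mem_filter, mem_Ico] at hi
  obtain ⟨⟨hsi, hit⟩, hblk, hLG, hRG⟩ := hi
  have hW0 : (0:ℝ) < W := by exact_mod_cast hW
  have hL : 0 < Real.log x := by linarith
  have hx0 : 0 < x := by linarith
  obtain ⟨μ, hμ⟩ : ∃ μ : ℝ, μ = (W : ℝ) / Real.log x := ⟨_, rfl⟩
  rw [← hμ] at hLG hRG
  have hμ0 : 0 < μ := by rw [hμ]; positivity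
  have hμL : μ * Real.log x = W := by rw [hμ]; field_simp
  have hμW : μ ≤ W := by
    rw [hμ]
    exact div_le_self hW0.le hL1
  -- sizes
  have hsi' : (s : ℝ) ≤ i := by exact_mod_cast hsi
  have hit' : (i : ℝ) + 1 ≤ t := by exact_mod_cast hit
  have hiW1 : 5 / 4 * x ≤ i * W := hs.trans (mul_le_mul_of_nonneg_right hsi' hW0.le)
  have hiW2 : ((i : ℝ) + 1) * W ≤ 7 / 4 * x := (mul_le_mul_of_nonneg_right hit' hW0.le).trans ht
  have hnW : (n : ℝ) ≤ ((i : ℝ) + 1) * W := by
    have : (n : ℝ) ≤ i * W + X := by linarith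
    linarith
  have hnW' : n ≤ (i + 1) * W := by exact_mod_cast hnW
  have hnx : 5 / 4 * x ≤ n := by
    have : ((i * W : ℕ) : ℝ) ≤ n := by exact_mod_cast hn1'
    push_cast at this
    linarith
  have hn2' : 2 ≤ n := by
    have : (2:ℝ) ≤ n := by linarith
    exact_mod_cast this
  obtain ⟨m, hm1, hm2, hm3, hm4, hm5⟩ := around hn2'
  -- no prime in the run
  have hcomp : ∀ k : ℕ, 1 ≤ k → (k : ℝ) ≤ F → ¬ (n + k).Prime := by
    intro k hk1 hk2 hp
    obtain ⟨p, hp1, hp2, hp3⟩ := hn3 k hk1 hk2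
    have h1 : p ∣ n + k := by exact_mod_cast hp3
    rcases (Nat.dvd_prime hp).1 h1 with h | h
    · exact hp1.one_lt.ne' h
    · have h2 : ((n + k : ℕ) : ℝ) ≤ X ^ (1 / 2 : ℝ) := by rw [← h]; exact hp2
      push_cast at h2
      have : (0:ℝ) ≤ k := Nat.cast_nonneg k
      linarith
  have hm6 : n + ⌊F⌋₊ < Nat.nth Nat.Prime (m + 1) := by
    by_contra hcon
    push Not at hcon
    have h1 : (n + (Nat.nth Nat.Prime (m + 1) - n)).Prime := by
      rw [show n + (Nat.nth Nat.Prime (m + 1) - n) = Nat.nth Nat.Prime (m + 1) by omega]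
      exact Nat.prime_nth_prime (m + 1)
    refine hcomp _ (by omega) ?_ h1
    have h2 : Nat.nth Nat.Prime (m + 1) - n ≤ ⌊F⌋₊ := by omega
    calc ((Nat.nth Nat.Prime (m + 1) - n : ℕ) : ℝ) ≤ (⌊F⌋₊ : ℝ) := by exact_mod_cast h2
      _ ≤ F := Nat.floor_le hF
  have hgap : G ≤ (Nat.nth Nat.Prime (m + 1) : ℝ) - Nat.nth Nat.Prime m := by
    have h1 : ((n + ⌊F⌋₊ + 1 : ℕ) : ℝ) ≤ Nat.nth Nat.Prime (m + 1) := by exact_mod_cast hm6
    push_cast at h1
    have h2 := Nat.lt_floor_add_one F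
    have h3 : (Nat.nth Nat.Prime m : ℝ) ≤ n := by exact_mod_cast hm1
    linarith
  -- sums over blocks as differences of `π`
  have hLG' : ∀ k : ℕ, 1 ≤ k → k ≤ K → α' * μ * k ≤
      (Nat.primeCounting ((i + 1) * W) : ℝ) - Nat.primeCounting ((i + 1 - k) * W) := by
    intro k h1 h2
    have h := hLG k h1 h2
    rwa [sum_blk W (by omega)] at h
  have hRG' : ∀ k : ℕ, 1 ≤ k → k ≤ K → β' * μ * k ≤
      (Nat.primeCounting ((i + k) * W) : ℝ) - Nat.primeCounting (i * W) := by
    intro k h1 h2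
    have h := hRG k h1 h2
    rwa [sum_blk W (by omega)] at h
  have hb : (Nat.primeCounting ((i + 1) * W) : ℝ) - Nat.primeCounting (i * W) ≤ W := by
    have := blk_le W i
    unfold blk at this
    exact this
  have hpn1 : (Nat.primeCounting (i * W) : ℝ) ≤ Nat.primeCounting n := pc_mono hn1'
  have hpn2 : (Nat.primeCounting n : ℝ) ≤ Nat.primeCounting ((i + 1) * W) := pc_mono hnW'
  have hm3' : (Nat.primeCounting n : ℝ) = m + 1 := by exact_mod_cast hm3
  have hm4' : (Nat.primeCounting (Nat.nth Nat.Prime m) : ℝ) = m + 1 := by exact_mod_cast hm4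
  have hm5' : (Nat.primeCounting (Nat.nth Nat.Prime (m + 1)) : ℝ) = m + 2 := by exact_mod_cast hm5
  -- a medium number of blocks
  obtain ⟨k₀, hk₀⟩ : ∃ k : ℕ, k = ⌊x / (5 * W)⌋₊ := ⟨_, rfl⟩
  have hk1 : (k₀ : ℝ) * W ≤ x / 5 := by
    have h := Nat.floor_le (show 0 ≤ x / (5 * W) by positivity)
    rw [← hk₀, le_div_iff₀ (by positivity)] at h
    linarith
  have hWx : 20 * (W : ℝ) ≤ x := by
    have h1 : (W : ℝ) ≤ W * Real.log x := by
      calc (W : ℝ) = W * 1 := (mul_one _).symm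
        _ ≤ W * Real.log x := mul_le_mul_of_nonneg_left hL1 hW0.le
    have h2 : α' * x ≤ 1 * x := mul_le_mul_of_nonneg_right hα'1 hx0.le
    linarith
  have hk2 : x / 10 ≤ (k₀ : ℝ) * W := by
    have h := (Nat.lt_floor_add_one (x / (5 * W))).le
    rw [← hk₀, div_le_iff₀ (by positivity)] at h
    linarith
  have hkK : k₀ ≤ K := by
    have h : (k₀ : ℝ) * W ≤ K * W := by linarith
    exact_mod_cast le_of_mul_le_mul_right h hW0
  have hk1' : 1 ≤ k₀ := by
    by_contra h
    have h0 : k₀ = 0 := by omega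
    rw [h0] at hk2
    push_cast at hk2
    linarith
  have hKi : K ≤ i := by
    have h : (K : ℝ) * W ≤ i * W := by linarith
    exact_mod_cast le_of_mul_le_mul_right h hW0
  have hμk : ∀ γ : ℝ, 0 < γ → 20 * ((W : ℝ) * Real.log x) ≤ γ * x → (W : ℝ) + 1 ≤ γ * μ * k₀ := by
    intro γ hγ h
    have h1 : γ * μ * k₀ * Real.log x = γ * (k₀ * W) := by
      rw [← hμL]
      ring
    have h2 : γ * (x / 10) ≤ γ * (k₀ * W) := mul_le_mul_of_nonneg_left hk2 hγ.le
    have h3 : ((W : ℝ) + 1) * Real.log x ≤ 2 * (W * Real.log x) := by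
      have hW1 : (1:ℝ) ≤ W := by exact_mod_cast hW
      have : 1 * Real.log x ≤ W * Real.log x := mul_le_mul_of_nonneg_right hW1 hL.le
      linarith
    have h4 : ((W : ℝ) + 1) * Real.log x ≤ γ * μ * k₀ * Real.log x := by
      rw [h1]
      linarith
    exact le_of_mul_le_mul_right h4 hL
  -- the prime below is larger than `x`
  have hlow : x < Nat.nth Nat.Prime m := by
    have h1 := hLG' k₀ hk1' hkK
    have h2 := hμk α' hα' hWa
    have h3 : (Nat.primeCounting ((i + 1 - k₀) * W) : ℝ) < Nat.primeCounting (Nat.nth Nat.Prime m) := by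
      rw [hm4']
      linarith
    have h4 : (i + 1 - k₀) * W < Nat.nth Nat.Prime m := by
      by_contra hcon
      push Not at hcon
      have := pc_mono hcon
      linarith
    have h5 : (((i + 1 - k₀) * W : ℕ) : ℝ) < Nat.nth Nat.Prime m := by exact_mod_cast h4
    rw [Nat.cast_mul, Nat.cast_sub (by omega)] at h5
    push_cast at h5
    have e : ((i : ℝ) + 1 - k₀) * W = i * W + W - k₀ * W := by ring
    linarith
  have hupp : (Nat.nth Nat.Prime (m + 1) : ℝ) ≤ 2 * x := by
    have h1 := hRG' k₀ hk1' hkK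
    have h2 := hμk β' hβ' hWb
    have h4 : Nat.nth Nat.Prime (m + 1) ≤ (i + k₀) * W := by
      by_contra hcon
      push Not at hcon
      have h5 : Nat.primeCounting ((i + k₀) * W) ≤ m + 1 := by
        have h6 : (i + k₀) * W + 1 ≤ Nat.nth Nat.Prime (m + 1) := hcon
        have h7 : Nat.count Nat.Prime ((i + k₀) * W + 1) ≤
            Nat.count Nat.Prime (Nat.nth Nat.Prime (m + 1)) := Nat.count_monotone _ h6
        rw [Nat.count_nth_of_infinite Nat.infinite_setOfPred_prime] at h7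
        exact h7
      have h8 : (Nat.primeCounting ((i + k₀) * W) : ℝ) ≤ m + 1 := by exact_mod_cast h5
      linarith
    have h5 : (Nat.nth Nat.Prime (m + 1) : ℝ) ≤ (((i + k₀) * W : ℕ) : ℝ) := by exact_mod_cast h4
    push_cast at h5
    have e : ((i : ℝ) + k₀) * W = i * W + k₀ * W := by ring
    linarith
  refine ⟨m, hlow, hupp, hgap, ?_, ?_⟩
  · -- regularity
    intro H hH1 hH2
    have hH0 : 0 < H := lt_of_lt_of_le hW0 (hX'W.trans hH1)
    obtain ⟨k, hk⟩ : ∃ k : ℕ, k = ⌊H / W⌋₊ := ⟨_, rfl⟩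
    have a1 : (k : ℝ) * W ≤ H := by
      have h := Nat.floor_le (show 0 ≤ H / W by positivity)
      rw [← hk, le_div_iff₀ hW0] at h
      exact h
    have a2 : H ≤ (k : ℝ) * W + W := by
      have h := (Nat.lt_floor_add_one (H / W)).le
      rw [← hk, div_le_iff₀ hW0] at h
      linarith
    have a3 : k ≤ K := by
      have h : (k : ℝ) * W ≤ K * W := by linarith
      exact_mod_cast le_of_mul_le_mul_right h hW0
    have a4 : 1 ≤ k := by
      rw [hk]
      apply Nat.le_floor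
      rw [Nat.cast_one, le_div_iff₀ hW0]
      linarith
    have hγ : ∀ γ γ' : ℝ, 0 < γ' → γ' ≤ 1 → γ ≤ γ' → 4 * ((W : ℝ) * Real.log x) ≤ (γ' - γ) * X' →
        γ * (H / Real.log x) + 2 * W + 1 ≤ γ' * μ * k := by
      intro γ γ' hγ0 hγ1 hγγ h
      have b1 : γ' * μ * k * Real.log x = γ' * (k * W) := by
        rw [← hμL]
        ring
      have b2 : γ' * (H - W) ≤ γ' * (k * W) := by
        apply mul_le_mul_of_nonneg_left _ hγ0.le
        linarith
      have b3 : (γ' - γ) * X' ≤ (γ' - γ) * H := mul_le_mul_of_nonneg_left hH1 (by linarith)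
      have b4 : γ' * W ≤ 1 * (W : ℝ) := mul_le_mul_of_nonneg_right hγ1 hW0.le
      have b5 : (W : ℝ) ≤ W * Real.log x := by
        calc (W : ℝ) = W * 1 := (mul_one _).symm
          _ ≤ W * Real.log x := mul_le_mul_of_nonneg_left hL1 hW0.le
      have hW1 : (1:ℝ) ≤ W := by exact_mod_cast hW
      have b6 : 1 * Real.log x ≤ W * Real.log x := mul_le_mul_of_nonneg_right hW1 hL.le
      have b7 : (γ * (H / Real.log x) + 2 * W + 1) * Real.log x ≤ γ' * μ * k * Real.log x := by
        have e1 : (γ * (H / Real.log x) + 2 * W + 1) * Real.log x =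
            γ * H + 2 * (W * Real.log x) + 1 * Real.log x := by
          field_simp
        rw [e1, b1]
        linarith
      exact le_of_mul_le_mul_right b7 hL
    constructor
    · have c1 := hLG' k a4 a3
      have c2 := hγ α α' hα' hα'1 hαα hX'a
      have c3 : pi ((Nat.nth Nat.Prime m : ℝ) - H) ≤ Nat.primeCounting ((i + 1 - k) * W) := by
        rw [← pi_nat]
        apply pi_mono
        rw [Nat.cast_mul, Nat.cast_sub (by omega)]
        push_cast
        have h3 : (Nat.nth Nat.Prime m : ℝ) ≤ n := by exact_mod_cast hm1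
        have e : ((i : ℝ) + 1 - k) * W = ((i : ℝ) + 1) * W - k * W := by ring
        rw [e]
        linarith
      rw [pi_nat, hm4']
      linarith
    · have c1 := hRG' k a4 a3
      have c2 := hγ β β' hβ' hβ'1 hββ hX'b
      have c3 : (Nat.primeCounting ((i + k) * W) : ℝ) ≤ pi ((Nat.nth Nat.Prime (m + 1) : ℝ) + H) := by
        rw [← pi_nat]
        apply pi_mono
        push_cast
        have h3 : (n : ℝ) ≤ Nat.nth Nat.Prime (m + 1) := by exact_mod_cast hm2.le
        have h4 : ((i * W : ℕ) : ℝ) ≤ n := by exact_mod_cast hn1'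
        push_cast at h4
        have e : ((i : ℝ) + k) * W = i * W + k * W := by ring
        rw [e]
        linarith
      rw [pi_nat, hm5']
      linarith
  · -- the block contains one of the two primes
    by_cases hcase : i * W < Nat.nth Nat.Prime m
    · left
      symm
      rw [Nat.div_eq_iff (by omega)]
      constructor
      · omega
      · have : (i + 1) * W = i * W + W := by ring
        omega
    · right
      push Not at hcase
      have h1 : m + 1 ≤ Nat.primeCounting (i * W) := by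
        rw [← hm4]
        exact Nat.monotone_primeCounting hcase
      have h2 : (Nat.primeCounting (i * W) : ℝ) < Nat.primeCounting ((i + 1) * W) := by
        unfold blk at hblk
        linarith
      have h3 : Nat.primeCounting (i * W) < Nat.primeCounting ((i + 1) * W) := by exact_mod_cast h2
      have h4 : Nat.nth Nat.Prime (m + 1) ≤ (i + 1) * W := by
        by_contra hcon
        push Not at hcon
        have h6 : (i + 1) * W + 1 ≤ Nat.nth Nat.Prime (m + 1) := hcon
        have h7 : Nat.count Nat.Prime ((i + 1) * W + 1) ≤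
            Nat.count Nat.Prime (Nat.nth Nat.Prime (m + 1)) := Nat.count_monotone _ h6
        rw [Nat.count_nth_of_infinite Nat.infinite_setOfPred_prime] at h7
        have h8 : Nat.primeCounting ((i + 1) * W) ≤ m + 1 := h7
        omega
      symm
      rw [Nat.div_eq_iff (by omega)]
      constructor
      · omega
      · have : (i + 1) * W = i * W + W := by ring
        omega

end Pool.Agent.K4H50.GR
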