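import Mathlib
import Pool.Agent.Y831.RC2.Quarter
import Pool.Agent.Y831.RC2.Count2
import Pool.Agent.K4H50.GR.A4

set_option autoImplicit false

/-! # Assembly: large gaps with regular surroundings -/

namespace Pool.Agent.K4H50.GR

open Finset Filter Topology Pool.Agent.Y831.RC Pool.Agent.H256R2.SC

open scoped Classical

/-- the set of the indices -/
def GS (x G X' α β : ℝ) : Set ℕ :=
  {m : ℕ | x < Nat.nth Nat.Prime m ∧ (Nat.nth Nat.Prime (m + 1) : ℝ) ≤ 2 * x ∧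
      G ≤ (Nat.nth Nat.Prime (m + 1) : ℝ) - Nat.nth Nat.Prime m ∧ Reg x X' α β m}

theorem GS_finite (x G X' α β : ℝ) : (GS x G X' α β).Finite := by
  refine (Set.finite_Iic ⌊2 * x⌋₊).subset ?_
  intro m hm
  have h1 : (m : ℝ) ≤ Nat.nth Nat.Prime (m + 1) := by
    have h := (Nat.nth_strictMono Nat.infinite_setOfPred_prime).le_apply (x := m + 1)
    exact_mod_cast (Nat.le_succ m).trans h
  exact Nat.le_floor (h1.trans hm.2.1)

theorem card_GS {x G X' α β : ℝ} {W : ℕ} (T : Finset ℕ)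
    (h : ∀ i ∈ T, ∃ m ∈ GS x G X' α β,
      (i = (Nat.nth Nat.Prime m - 1) / W ∨ i = (Nat.nth Nat.Prime (m + 1) - 1) / W)) :
    (T.card : ℝ) ≤ 2 * ((GS x G X' α β).ncard : ℝ) := by
  have hfin := GS_finite x G X' α β
  have e1 : (GS x G X' α β).ncard = hfin.toFinset.card := Set.ncard_eq_toFinset_card _ hfin
  have e2 : T ⊆ (hfin.toFinset.image (fun m => (Nat.nth Nat.Prime m - 1) / W)) ∪
      (hfin.toFinset.image (fun m => (Nat.nth Nat.Prime (m + 1) - 1) / W)) := by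
    intro i hi
    obtain ⟨m, hm, h1 | h1⟩ := h i hi
    · rw [mem_union]
      left
      exact mem_image.2 ⟨m, hfin.mem_toFinset.2 hm, h1.symm⟩
    · rw [mem_union]
      right
      exact mem_image.2 ⟨m, hfin.mem_toFinset.2 hm, h1.symm⟩
  have e3 : T.card ≤ 2 * (GS x G X' α β).ncard := by
    refine (card_le_card e2).trans ((card_union_le _ _).trans ?_)
    have a1 := card_image_le (s := hfin.toFinset) (f := fun m => (Nat.nth Nat.Prime m - 1) / W)
    have a2 := card_image_le (s := hfin.toFinset) (f := fun m => (Nat.nth Nat.Prime (m + 1) - 1) / W)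
    rw [e1]
    omega
  exact_mod_cast e3

theorem exact_form (c₀ : ℝ) (h0 : 0 < c₀) (h1 : c₀ ≤ 1) (hrun : RunProp c₀) (ε : ℝ) (hε : 0 < ε)
    (hε1 : ε ≤ 1) (α β : ℝ) (hα : 0 ≤ α) (hβ : 0 ≤ β) (hαβ : α + β < 1) :
    ∃ x₀ : ℝ, ∀ x : ℝ, x₀ ≤ x → ∀ H : ℝ, Real.log x ≤ H →
    H ≤ (1 - ε) * (c₀ * ff x) →
    x ^ (1 - (1 + ε) * (H / (c₀ * ff x))) ≤
      ((GS x H (x ^ ((1 + ε) * (H / (c₀ * ff x)))) α β).ncard : ℝ) := by
  obtain ⟨X₁, hX₁⟩ := hrun (c₀ * (1 - ε / 8)) (1 / 2) (by apply mul_pos h0; linarith)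
    (by
      have : c₀ * (1 - ε / 8) < c₀ * 1 := mul_lt_mul_of_pos_left (by linarith) h0
      linarith) (by norm_num)
  obtain ⟨κ, hκ⟩ : ∃ κ : ℝ, κ = 1 - α - β := ⟨_, rfl⟩
  have hκ0 : 0 < κ := by rw [hκ]; linarith
  have hκ1 : κ ≤ 1 := by rw [hκ]; linarith
  obtain ⟨α', hα'⟩ : ∃ α' : ℝ, α' = α + κ / 4 := ⟨_, rfl⟩
  obtain ⟨β', hβ'⟩ : ∃ β' : ℝ, β' = β + κ / 4 := ⟨_, rfl⟩
  have hα'0 : 0 < α' := by rw [hα']; linarith
  have hβ'0 : 0 < β' := by rw [hβ']; linarith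
  have hα'1 : α' ≤ 1 := by rw [hα', hκ]; linarith
  have hβ'1 : β' ≤ 1 := by rw [hβ', hκ]; linarith
  have hκ' : 1 - α' - β' = κ / 2 := by rw [hα', hβ', hκ]; ring
  obtain ⟨x₁, hx₁⟩ := ff_theta2 (ε / 8) (by positivity) (by linarith)
  obtain ⟨x₂, hx₂⟩ := many_good hα'0.le hβ'0.le (show α' + β' < 1 by linarith)
  obtain ⟨x₃, hx₃⟩ := ev_count2 (ε / 2) (by positivity) X₁
  obtain ⟨x₄, hx₄⟩ := eventually_atTop.1 ((Real.tendsto_log_atTop.eventually_ge_atTop (1000 / κ)))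
  refine ⟨max x₁ (max x₂ (max x₃ (max x₄ 100))), fun x hx H hHl hH => ?_⟩
  have b1 : x₁ ≤ x := (le_max_left _ _).trans hx
  have b2 : x₂ ≤ x := (le_max_left _ _).trans ((le_max_right _ _).trans hx)
  have b3 : x₃ ≤ x := (le_max_left _ _).trans ((le_max_right _ _).trans ((le_max_right _ _).trans hx))
  have b4 : x₄ ≤ x := (le_max_left _ _).trans ((le_max_right _ _).trans ((le_max_right _ _).trans
    ((le_max_right _ _).trans hx)))
  have b5 : (100:ℝ) ≤ x := (le_max_right _ _).trans ((le_max_right _ _).trans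
    ((le_max_right _ _).trans ((le_max_right _ _).trans hx)))
  obtain ⟨g1, g2, g3, g4, g5, g6, g7, g8⟩ := hx₃ x b3
  have hx0 : 0 < x := by linarith
  have hl2 : 1 / Real.log (Real.log x) ^ 2 ≤ 1 := by
    rw [div_le_one (by positivity)]
    nlinarith
  have hlogκ : 1000 / κ ≤ Real.log x := hx₄ x b4
  have hlog1000 : 1000 ≤ Real.log x := by
    refine le_trans ?_ hlogκ
    rw [le_div_iff₀ hκ0]
    linarith
  have hlx : 0 < Real.log x := by linarith
  have hfpos : 0 < ff x := (hx₁ x 1 b1 hl2 le_rfl).1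
  have hcf : 0 < c₀ * ff x := by positivity
  obtain ⟨r, hr⟩ : ∃ r, r = H / (c₀ * ff x) := ⟨_, rfl⟩
  have hHr : H = r * (c₀ * ff x) := by rw [hr, div_mul_cancel₀ _ hcf.ne']
  rw [← hr]
  have hr1 : r ≤ 1 - ε := by
    rw [hr, div_le_iff₀ hcf]
    exact hH
  have hrlow : 1 / Real.log (Real.log x) ^ 2 ≤ r := by
    rw [hr, le_div_iff₀ hcf]
    refine le_trans ?_ hHl
    have hl3 : 0 < Real.log (Real.log (Real.log x)) := Real.log_pos g6
    have e1 : 1 / Real.log (Real.log x) ^ 2 * (c₀ * ff x) =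
        c₀ * (Real.log x * (Real.log (Real.log (Real.log (Real.log x))) /
          Real.log (Real.log (Real.log x)) ^ 2)) := by
      have : Real.log (Real.log x) ≠ 0 := by linarith
      unfold ff
      field_simp
    rw [e1]
    have e2 : Real.log (Real.log (Real.log (Real.log x))) /
          Real.log (Real.log (Real.log x)) ^ 2 ≤ 1 := by
      rw [div_le_one (by positivity)]
      exact g7
    have e3 : 0 ≤ Real.log (Real.log (Real.log (Real.log x))) /
          Real.log (Real.log (Real.log x)) ^ 2 := by positivity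
    calc c₀ * (Real.log x * (Real.log (Real.log (Real.log (Real.log x))) /
          Real.log (Real.log (Real.log x)) ^ 2)) ≤ 1 * (Real.log x * 1) := by
          apply mul_le_mul h1 _ (by positivity) zero_le_one
          exact mul_le_mul_of_nonneg_left e2 hlx.le
      _ = Real.log x := by ring
  have hr0 : 0 < r := lt_of_lt_of_le (by positivity) hrlow
  obtain ⟨θ, hθ⟩ : ∃ θ, θ = (1 + ε / 2) * r := ⟨_, rfl⟩
  have hθr : r ≤ θ := by rw [hθ]; nlinarith
  have hθ1 : θ ≤ 1 - ε / 2 := by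
    rw [hθ]
    have e1 : (1 + ε / 2) * r ≤ (1 + ε / 2) * (1 - ε) :=
      mul_le_mul_of_nonneg_left hr1 (by linarith)
    nlinarith
  obtain ⟨_, hff⟩ := hx₁ x θ b1 (hrlow.trans hθr) (by linarith)
  obtain ⟨X, hX⟩ : ∃ X, X = x ^ θ := ⟨_, rfl⟩
  rw [← hX] at hff
  have hXlow : x ^ (1 / Real.log (Real.log x) ^ 2) ≤ X := by
    rw [hX]
    exact Real.rpow_le_rpow_of_exponent_le g1 (hrlow.trans hθr)
  have hX16 : 16 ≤ X := g3.trans hXlow
  have hX0 : 0 < X := by linarith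
  have hF : H ≤ c₀ * (1 - ε / 8) * ff X := by
    have e2 : c₀ * (1 - ε / 8) * ((1 - ε / 8) * (θ * ff x)) ≤ c₀ * (1 - ε / 8) * ff X := by
      apply mul_le_mul_of_nonneg_left hff
      apply mul_nonneg h0.le
      linarith
    refine le_trans ?_ e2
    rw [hHr, hθ]
    have e3 : c₀ * (1 - ε / 8) * ((1 - ε / 8) * ((1 + ε / 2) * r * ff x)) =
        ((1 - ε / 8) ^ 2 * (1 + ε / 2)) * (r * (c₀ * ff x)) := by ring
    rw [e3]
    have e4 : 1 ≤ (1 - ε / 8) ^ 2 * (1 + ε / 2) := by nlinarith [sq_nonneg ε]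
    have e5 : 0 ≤ r * (c₀ * ff x) := by positivity
    calc r * (c₀ * ff x) = 1 * (r * (c₀ * ff x)) := (one_mul _).symm
      _ ≤ _ := mul_le_mul_of_nonneg_right e4 e5
  have hF0 : 0 ≤ c₀ * (1 - ε / 8) * ff X := by
    refine le_trans ?_ hF
    linarith
  -- the block length
  obtain ⟨W, hW⟩ : ∃ W : ℕ, W = ⌈X⌉₊ := ⟨_, rfl⟩
  have hXW : X ≤ W := by rw [hW]; exact Nat.le_ceil X
  have hW2 : (W : ℝ) ≤ 2 * X := by
    have := Nat.ceil_lt_add_one (show 0 ≤ X by linarith)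
    rw [← hW] at this
    linarith
  have hW0 : (0:ℝ) < W := by linarith
  have hW1 : 1 ≤ W := by
    have : (0:ℝ) < W := hW0
    exact_mod_cast this
  -- the slack
  obtain ⟨Z, hZ⟩ : ∃ Z, Z = x ^ (ε / 2 * r) := ⟨_, rfl⟩
  have hZlow : 64 * Real.log x * (64 * Real.log x) ≤ Z := by
    have e1 : x ^ (ε / 2 / 2 * (1 / Real.log (Real.log x) ^ 2)) *
        x ^ (ε / 2 / 2 * (1 / Real.log (Real.log x) ^ 2)) ≤ Z := by
      rw [← Real.rpow_add hx0, hZ]
      apply Real.rpow_le_rpow_of_exponent_le g1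
      have : ε / 2 / 2 * (1 / Real.log (Real.log x) ^ 2) + ε / 2 / 2 * (1 / Real.log (Real.log x) ^ 2) =
        ε / 2 * (1 / Real.log (Real.log x) ^ 2) := by ring
      rw [this]
      exact mul_le_mul_of_nonneg_left hrlow (by positivity)
    refine le_trans ?_ e1
    exact mul_le_mul g5 g5 (by positivity) ((by positivity : (0:ℝ) ≤ 64 * Real.log x).trans g5)
  have hZκ : 1000 / κ * (64 * Real.log x) ≤ Z := by
    refine le_trans ?_ hZlow
    apply mul_le_mul_of_nonneg_right _ (by positivity)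
    linarith
  have hZ0 : 0 < Z := by rw [hZ]; exact Real.rpow_pos_of_pos hx0 _
  have hκZ : 64000 * Real.log x ≤ κ * Z := by
    have e1 : κ * (1000 / κ * (64 * Real.log x)) ≤ κ * Z := mul_le_mul_of_nonneg_left hZκ hκ0.le
    have e2 : κ * (1000 / κ * (64 * Real.log x)) = 64000 * Real.log x := by
      field_simp
      norm_num
    linarith
  have hXZ : X * Z = x ^ ((1 + ε) * r) := by
    rw [hX, hZ, ← Real.rpow_add hx0, hθ]
    congr 1
    ring
  obtain ⟨X', hX'⟩ : ∃ X', X' = x ^ ((1 + ε) * r) := ⟨_, rfl⟩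
  rw [← hX'] at hXZ ⊢
  have hX'x : X' ≤ x := by
    rw [hX']
    calc x ^ ((1 + ε) * r) ≤ x ^ (1:ℝ) := by
          apply Real.rpow_le_rpow_of_exponent_le g1
          nlinarith
      _ = x := Real.rpow_one x
  have hκX' : 32000 * ((W : ℝ) * Real.log x) ≤ κ * X' := by
    calc 32000 * ((W : ℝ) * Real.log x) ≤ 32000 * ((2 * X) * Real.log x) := by
          apply mul_le_mul_of_nonneg_left _ (by norm_num)
          exact mul_le_mul_of_nonneg_right hW2 hlx.le
      _ = X * (64000 * Real.log x) := by ring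
      _ ≤ X * (κ * Z) := mul_le_mul_of_nonneg_left hκZ hX0.le
      _ = κ * X' := by rw [← hXZ]; ring
  have hκx : 32000 * ((W : ℝ) * Real.log x) ≤ κ * x :=
    hκX'.trans (mul_le_mul_of_nonneg_left hX'x hκ0.le)
  have hWL : (W : ℝ) ≤ W * Real.log x := by
    calc (W : ℝ) = W * 1 := (mul_one _).symm
      _ ≤ W * Real.log x := mul_le_mul_of_nonneg_left (by linarith) hW0.le
  have hκx1 : κ * x ≤ 1 * x := mul_le_mul_of_nonneg_right hκ1 hx0.le
  have hX'0 : 0 < X' := by rw [← hXZ]; positivity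
  have hκX1 : κ * X' ≤ 1 * X' := mul_le_mul_of_nonneg_right hκ1 hX'0.le
  obtain ⟨K, s, t, hK1, hK2, hs, ht, hcard⟩ := hx₂ x b2 W hW1 (by linarith)
  rw [hκ'] at hcard
  -- every good block gives a gap
  have hgap : ∀ i ∈ GB x W K s t α' β', ∃ m ∈ GS x H X' α β,
      (i = (Nat.nth Nat.Prime m - 1) / W ∨ i = (Nat.nth Nat.Prime (m + 1) - 1) / W) := by
    intro i hi
    have hα'x : κ / 4 * x ≤ α' * x := mul_le_mul_of_nonneg_right (by rw [hα']; linarith) hx0.le
    have hβ'x : κ / 4 * x ≤ β' * x := mul_le_mul_of_nonneg_right (by rw [hβ']; linarith) hx0.le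
    have hαd : α' - α = κ / 4 := by rw [hα']; ring
    have hβd : β' - β = κ / 4 := by rw [hβ']; ring
    obtain ⟨m, q1, q2, q3, q4, q5⟩ := block_gap (x := x) (X := X) (F := c₀ * (1 - ε / 8) * ff X)
      (G := H) (X' := X') (α := α) (β := β) (α' := α') (β' := β') (W := W) (K := K) (s := s) (t := t)
      (i := i) b5 hW1 hα'0 hβ'0 hα'1 hβ'1 (by linarith) (by linarith) (by linarith)
      (by rw [hαd]; linarith) (by rw [hβd]; linarith) (by linarith) (by linarith) (by linarith)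
      hXW hF hF0 hK1 hK2 hs ht hi
      (by
        calc X ^ (1 / 2 : ℝ) ≤ X ^ (1 : ℝ) :=
              Real.rpow_le_rpow_of_exponent_le (by linarith) (by norm_num)
          _ = X := Real.rpow_one X
          _ ≤ x := by linarith)
      (hX₁ X (g2.trans hXlow) _)
    exact ⟨m, ⟨q1, q2, q3, q4⟩, q5⟩
  have hfin := card_GS _ hgap
  have e1 : κ / 2 / 8 * (x / (W * Real.log x)) ≤ 2 * ((GS x H X' α β).ncard : ℝ) := hcard.trans hfin
  have e2 : x ^ (1 - (1 + ε) * r) * X' = x := by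
    rw [hX', ← Real.rpow_add hx0]
    ring_nf
    exact Real.rpow_one x
  have e3 : x / X' ≤ κ / 32 * (x / (W * Real.log x)) := by
    rw [← mul_div_assoc, div_le_div_iff₀ hX'0 (by positivity)]
    have : x * (32 * (W * Real.log x)) ≤ x * (κ * X') := by
      apply mul_le_mul_of_nonneg_left _ hx0.le
      have : 0 ≤ (W : ℝ) * Real.log x := by positivity
      linarith
    linarith
  have e4 : x ^ (1 - (1 + ε) * r) = x / X' := by
    rw [eq_div_iff hX'0.ne']
    exact e2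
  rw [e4]
  linarith

/-- the final form -/
theorem final (c₀ : ℝ) (h0 : 0 < c₀) (h1 : c₀ ≤ 1) (hrun : RunProp c₀) (ε : ℝ)
    (hε : 0 < ε) (α β : ℝ) (hα : 0 ≤ α) (hβ : 0 ≤ β) (hαβ : α + β < 1) :
    ∃ x₀ : ℝ, ∀ x : ℝ, x₀ ≤ x → ∀ H : ℝ, Real.log x ≤ H → H ≤ (c₀ - ε) * ff x →
    x ^ (1 - (1 / c₀ + ε) * H / ff x) ≤
      ((GS x H (x ^ ((1 / c₀ + ε) * H / ff x)) α β).ncard : ℝ) := by
  obtain ⟨X₁, hX₁⟩ := ff_mono
  obtain ⟨e, he⟩ : ∃ e, e = min 1 (c₀ * ε) := ⟨_, rfl⟩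
  have he0 : 0 < e := by rw [he]; exact lt_min one_pos (by positivity)
  have he1 : e ≤ 1 := by rw [he]; exact min_le_left _ _
  have he2 : e ≤ c₀ * ε := by rw [he]; exact min_le_right _ _
  obtain ⟨x₀, hx₀⟩ := exact_form c₀ h0 h1 hrun e he0 he1 α β hα hβ hαβ
  refine ⟨max 1 (max X₁ x₀), fun x hx H hHl hH => ?_⟩
  have hx1 : 1 ≤ x := (le_max_left _ _).trans hx
  have hf := (hX₁ x x ((le_max_left _ _).trans ((le_max_right _ _).trans hx)) le_rfl).1
  have hH0 : 0 ≤ H := (Real.log_nonneg hx1).trans hHl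
  have e3 : (1 + e) * (H / (c₀ * ff x)) ≤ (1 / c₀ + ε) * H / ff x := by
    have e1 : (1 + e) * (H / (c₀ * ff x)) = (1 / c₀ + e / c₀) * H / ff x := by
      field_simp
    rw [e1]
    have e2 : e / c₀ ≤ ε := by
      rw [div_le_iff₀ h0]
      linarith
    apply div_le_div_of_nonneg_right _ hf.le
    apply mul_le_mul_of_nonneg_right _ hH0
    linarith
  have hmain := hx₀ x ((le_max_right _ _).trans ((le_max_right _ _).trans hx)) H hHl
    (hH.trans (by
      have h3 : c₀ * e ≤ ε := by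
        have e1 : c₀ * e ≤ 1 * (c₀ * ε) := mul_le_mul h1 he2 he0.le zero_le_one
        have e2 : c₀ * ε ≤ 1 * ε := mul_le_mul_of_nonneg_right h1 hε.le
        linarith
      calc (c₀ - ε) * ff x ≤ (c₀ - c₀ * e) * ff x :=
            mul_le_mul_of_nonneg_right (by linarith) hf.le
        _ = _ := by ring))
  refine le_trans ?_ (hmain.trans ?_)
  · apply Real.rpow_le_rpow_of_exponent_le hx1
    linarith
  · have hsub : GS x H (x ^ ((1 + e) * (H / (c₀ * ff x)))) α β ⊆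
        GS x H (x ^ ((1 / c₀ + ε) * H / ff x)) α β := by
      rintro m ⟨q1, q2, q3, q4⟩
      refine ⟨q1, q2, q3, fun H' h1' h2' => q4 H' (le_trans ?_ h1') h2'⟩
      exact Real.rpow_le_rpow_of_exponent_le hx1 e3
    exact_mod_cast Set.ncard_le_ncard hsub (GS_finite _ _ _ _ _)

end Pool.Agent.K4H50.GR
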